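import Pool.Agent.H486.LP.Stm3

/-!
# LP-Q19: the part of the geometric side which is not triangular, uniform version

A copy of `Pool/Agent/H486/LP/P19.lean` with the constant uniform in the radius.
-/

set_option autoImplicit false

open UpperHalfPlane MeasureTheory Metric ModularGroup CongruenceSubgroup
open scoped MatrixGroups ENNReal Modular Topology NNReal ComplexConjugate Real

namespace Pool.Agent.H168.LP

open Pool.Agent.H486 Pool.Agent.H369R2 Pool.Agent.N799.DT Pool.Agent.H486.LF Pool.Agent.H486.LG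
  Pool.Agent.H486.LP

noncomputable section

lemma kerb (ρ : ℝ) : IsKer (bz ρ) where
  meas := measurable_bz2 ρ
  symm := bz_symm ρ
  inv γ z w := bz_smul ρ γ z w

lemma meas_b2 (ρ : ℝ) : Measurable (fun p : ℍ × ℍ => b2 ρ ρ p.1 p.2) := meas_conv (kerb ρ)

lemma meas_b2_smul (ρ : ℝ) (g : SL(2, ℝ)) : Measurable (fun z : ℍ => b2 ρ ρ z (g • z)) := by
  have h1 : Measurable (fun z : ℍ => (z, g • z)) :=
    measurable_id.prodMk (isometry_smul ℍ g).continuous.measurable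
  exact Measurable.comp (g := fun p : ℍ × ℍ => b2 ρ ρ p.1 p.2) (f := fun z : ℍ => (z, g • z))
    (meas_b2 ρ) h1

lemma b2_le_inv {ρ : ℝ} (hρ : 0 < ρ) (z w : ℍ) : b2 ρ ρ z w ≤ (ENNReal.ofReal (bv ρ))⁻¹ := by
  unfold b2
  have h1 : ∀ ζ, bz ρ z ζ * bz ρ w ζ ≤ (ENNReal.ofReal (bv ρ))⁻¹ * bz ρ w ζ := by
    intro ζ
    gcongr
    unfold bz
    by_cases h : ζ ∈ closedBall z ρ
    · rw [Set.indicator_of_mem h]; simp
    · rw [Set.indicator_of_notMem h]; simp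
  refine (lintegral_mono h1).trans ?_
  have h2 : ∫⁻ ζ, bz ρ w ζ = 1 := by
    have := Ap_eq hρ (fun _ => (1 : ℝ≥0∞)) w
    simp only [mul_one] at this
    rw [← this]
    exact Ap_const hρ 1 w
  rw [lintegral_const_mul _ (measurable_bz ρ w), h2, mul_one]

/-! ### reduction modulo `N` -/

/-- reduction of matrices -/
def mr (N : ℕ) : Mt →+* Matrix (Fin 2) (Fin 2) (ZMod N) := (Int.castRingHom (ZMod N)).mapMatrix

lemma mr_apply (N : ℕ) (A : Mt) (i j : Fin 2) : mr N A i j = ((A i j : ℤ) : ZMod N) := rfl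

lemma red_coe (N : ℕ) (g : SL(2, ℤ)) :
    ((red N g : SL(2, ZMod N)) : Matrix (Fin 2) (Fin 2) (ZMod N)) = mr N (g : Mt) := rfl

lemma dvd_iff (N Q : ℕ) (E : Mt) (k : SL(2, ℤ)) :
    (∀ i j, (N : ℤ) ∣ E i j - Q * k i j) ↔ mr N E = (Q : ZMod N) • mr N (k : Mt) := by
  constructor
  · intro h
    ext i j
    have h1 := (ZMod.intCast_zmod_eq_zero_iff_dvd (E i j - Q * k i j) N).2 (h i j)
    rw [Matrix.smul_apply, mr_apply, mr_apply, smul_eq_mul]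
    push_cast at h1
    exact sub_eq_zero.1 h1
  · intro h i j
    rw [← ZMod.intCast_zmod_eq_zero_iff_dvd]
    have h1 := congrFun (congrFun h i) j
    rw [Matrix.smul_apply, mr_apply, mr_apply, smul_eq_mul] at h1
    push_cast
    rw [h1, sub_self]

lemma ex_l (N Q : ℕ) (hN : 0 < N) (hQ : Q.Coprime N) : ∃ l : Mt → SL(2, ℤ),
    ∀ E : Mt, E.det = (Q : ℤ) ^ 2 → ∀ i j, (N : ℤ) ∣ E i j - Q * l E i j := by
  classical
  have key : ∀ E : Mt, ∃ k : SL(2, ℤ), E.det = (Q : ℤ) ^ 2 →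
      ∀ i j, (N : ℤ) ∣ E i j - Q * k i j := by
    intro E
    by_cases hE : E.det = (Q : ℤ) ^ 2
    · set u : (ZMod N)ˣ := ZMod.unitOfCoprime Q hQ with hu
      have hu1 : (u : ZMod N) = (Q : ZMod N) := ZMod.coe_unitOfCoprime Q hQ
      have hu2 : ((u⁻¹ : (ZMod N)ˣ) : ZMod N) * (Q : ZMod N) = 1 := by
        rw [← hu1, Units.inv_mul]
      have hdet : Matrix.det (((u⁻¹ : (ZMod N)ˣ) : ZMod N) • mr N E) = 1 := by
        rw [Matrix.det_smul, Fintype.card_fin]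
        have h1 : Matrix.det (mr N E) = ((E.det : ℤ) : ZMod N) := by
          have := (RingHom.map_det (Int.castRingHom (ZMod N)) E).symm
          exact this
        rw [h1, hE]
        push_cast
        rw [← mul_pow, hu2, one_pow]
      obtain ⟨k, hk⟩ := surj N hN ⟨_, hdet⟩
      refine ⟨k, fun _ => (dvd_iff N Q E k).2 ?_⟩
      have h2 : mr N (k : Mt) = ((u⁻¹ : (ZMod N)ˣ) : ZMod N) • mr N E := by
        rw [← red_coe, hk]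
      rw [h2, smul_smul, mul_comm (Q : ZMod N), hu2, one_smul]
    · exact ⟨1, fun h => absurd h hE⟩
  choose l hl using key
  exact ⟨l, hl⟩

lemma mem_of_DelC {Γ : Subgroup SL(2, ℤ)} {N Q : ℕ} (hΓ : Gamma N ≤ Γ) (hQ : Q.Coprime N)
    {g : SL(2, ℤ)} {E : Mt} (hE : E ∈ DelC Γ N Q g) {k : SL(2, ℤ)}
    (hk : ∀ i j, (N : ℤ) ∣ E i j - Q * k i j) : g * k * g⁻¹ ∈ Γ := by
  obtain ⟨-, γ, hγ, hd⟩ := hE
  rw [dvd_iff] at hk hd
  have h1 : (Q : ZMod N) • mr N ((g * k * g⁻¹ : SL(2, ℤ)) : Mt) = (Q : ZMod N) • mr N (γ : Mt) := by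
    rw [← hd, map_mul, map_mul, hk, Matrix.SpecialLinearGroup.coe_mul,
      Matrix.SpecialLinearGroup.coe_mul, map_mul, map_mul, Matrix.mul_smul, Matrix.smul_mul]
  have hu2 : (((ZMod.unitOfCoprime Q hQ)⁻¹ : (ZMod N)ˣ) : ZMod N) * (Q : ZMod N) = 1 := by
    rw [← ZMod.coe_unitOfCoprime Q hQ, Units.inv_mul]
  have h2 : mr N ((g * k * g⁻¹ : SL(2, ℤ)) : Mt) = mr N (γ : Mt) := by
    have := congrArg (fun M => (((ZMod.unitOfCoprime Q hQ)⁻¹ : (ZMod N)ˣ) : ZMod N) • M) h1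
    simp only [smul_smul, hu2, one_smul] at this
    exact this
  refine Dbl_mem_of_red Γ N hΓ _ ?_
  refine ⟨γ, hγ, ?_⟩
  apply Subtype.ext
  exact h2.symm

lemma det_of_DelC {Γ : Subgroup SL(2, ℤ)} {N Q : ℕ} {g : SL(2, ℤ)} {E : Mt}
    (hE : E ∈ DelC Γ N Q g) : E.det = (Q : ℤ) ^ 2 := by
  have h := hE.1
  rw [Matrix.det_mul, Matrix.det_mul, g.2, (g⁻¹).2, one_mul, mul_one] at h
  exact h

/-- the term of a matrix -/
def FF (ρ : ℝ) (Q : ℕ) (z : ℍ) (E : Mt) : ℝ≥0∞ :=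
  if E.det = (Q : ℤ) ^ 2 ∧ E 0 1 ≠ 0 ∧ E 1 0 ≠ 0 then b2 ρ ρ z (sQ Q E • z) else 0

lemma meas_FF (ρ : ℝ) (Q : ℕ) (E : Mt) : Measurable (fun z : ℍ => FF ρ Q z E) := by
  unfold FF
  split_ifs
  · exact meas_b2_smul ρ _
  · exact measurable_const

lemma step1 {Γ : Subgroup SL(2, ℤ)} {N Q : ℕ} (hΓ : Gamma N ≤ Γ) (hQ : Q.Coprime N) (ρ : ℝ)
    {l : Mt → SL(2, ℤ)} (hl : ∀ E : Mt, E.det = (Q : ℤ) ^ 2 →
      ∀ i j, (N : ℤ) ∣ E i j - Q * l E i j) (g : SL(2, ℤ)) (z : ℍ) :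
    ∑' E : {E : Mt // E ∈ DelC Γ N Q g ∧ E 0 1 ≠ 0 ∧ E 1 0 ≠ 0},
      b2 ρ ρ z (sQ Q (E : Mt) • z) ≤ ∑' E : Mt, Unf.c Γ g (l E) * FF ρ Q z E := by
  classical
  have h := tsum_subtype {E : Mt | E ∈ DelC Γ N Q g ∧ E 0 1 ≠ 0 ∧ E 1 0 ≠ 0}
    (fun E => b2 ρ ρ z (sQ Q E • z))
  refine (le_of_eq h).trans ?_
  refine ENNReal.tsum_le_tsum fun E => ?_
  by_cases hE : E ∈ {E : Mt | E ∈ DelC Γ N Q g ∧ E 0 1 ≠ 0 ∧ E 1 0 ≠ 0}
  · rw [Set.indicator_of_mem hE]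
    have hd := det_of_DelC hE.1
    have hm := mem_of_DelC hΓ hQ hE.1 (hl E hd)
    unfold Unf.c FF
    rw [if_pos hm, if_pos ⟨hd, hE.2.1, hE.2.2⟩, one_mul]
  · rw [Set.indicator_of_notMem hE]
    exact zero_le

instance countMt : Countable Mt :=
  inferInstanceAs (Countable (Fin 2 → Fin 2 → ℤ))

lemma step2 {Γ : Subgroup SL(2, ℤ)} {N Q : ℕ} (hN : 0 < N) (hΓ : Gamma N ≤ Γ) (ρ : ℝ)
    (l : Mt → SL(2, ℤ)) (s : Set ℍ) :
    ∑' g : SL(2, ℤ) ⧸ Gamma N, ∫⁻ z in s, ∑' E : Mt, Unf.c Γ g.out (l E) * FF ρ Q z E =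
      ((Gamma N).relIndex Γ : ℝ≥0∞) * ∫⁻ z in s,
        ∑' E : Mt, (fix Γ (l E) : ℝ≥0∞) * FF ρ Q z E := by
  have : NeZero N := ⟨hN.ne'⟩
  have : Countable (SL(2, ℤ) ⧸ Gamma N) := Quotient.countable
  rw [← lintegral_tsum]
  · have h2 : ∀ z : ℍ, ∑' g : SL(2, ℤ) ⧸ Gamma N, ∑' E : Mt,
        Unf.c Γ g.out (l E) * FF ρ Q z E = ((Gamma N).relIndex Γ : ℝ≥0∞) *
          ∑' E : Mt, (fix Γ (l E) : ℝ≥0∞) * FF ρ Q z E := by
      intro z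
      rw [ENNReal.tsum_comm, ← ENNReal.tsum_mul_left]
      congr 1
      ext E
      rw [ENNReal.tsum_mul_right, Unf.sum_c N hN Γ hΓ, mul_assoc]
    simp only [h2]
    rw [lintegral_const_mul]
    exact Measurable.tsum fun E => (meas_FF ρ Q E).const_mul _
  · intro g
    exact (Measurable.tsum fun E => (meas_FF ρ Q E).const_mul _).aemeasurable

lemma step3 (h2 : S_boxQ) {Γ : Subgroup SL(2, ℤ)} {N Q : ℕ} {ρ : ℝ} (hρ : 0 < ρ)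
    (hρ2 : ρ ≤ 1 / 2) (hQ0 : 0 < Q) {l : Mt → SL(2, ℤ)} {B : ℝ}
    (hl : ∀ E : Mt, E.det = (Q : ℤ) ^ 2 → ∀ i j, (N : ℤ) ∣ E i j - Q * l E i j)
    (hB : ∀ s : Finset Mt,
      (∀ E ∈ s, E.det = (Q : ℤ) ^ 2 ∧ E 0 1 ≠ 0 ∧ E 1 0 ≠ 0 ∧
        |(E 0 0 : ℝ)| ≤ 4 * Q ∧ |(E 1 1 : ℝ)| ≤ 4 * Q) →
      (∀ E ∈ s, ∀ i j, (N : ℤ) ∣ E i j - Q * l E i j) →
        ∑ E ∈ s, (fix Γ (l E) : ℝ) ≤ B)
    {z : ℍ} (hz : z ∈ (𝒟 : Set ℍ)) :
    ∑' E : Mt, (fix Γ (l E) : ℝ≥0∞) * FF ρ Q z E ≤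
      ENNReal.ofReal B * (ENNReal.ofReal (bv ρ))⁻¹ := by
  classical
  rw [ENNReal.tsum_eq_iSup_sum]
  refine iSup_le fun s => ?_
  set P : Mt → Prop := fun E => E.det = (Q : ℤ) ^ 2 ∧ E 0 1 ≠ 0 ∧ E 1 0 ≠ 0 ∧
        |(E 0 0 : ℝ)| ≤ 4 * Q ∧ |(E 1 1 : ℝ)| ≤ 4 * Q with hP
  have hterm : ∀ E ∈ s, (fix Γ (l E) : ℝ≥0∞) * FF ρ Q z E ≤
      if P E then (fix Γ (l E) : ℝ≥0∞) * (ENNReal.ofReal (bv ρ))⁻¹ else 0 := by
    intro E _
    split_ifs with hPE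
    · gcongr
      unfold FF
      split_ifs
      · exact b2_le_inv hρ _ _
      · exact zero_le
    · have h0 : FF ρ Q z E = 0 := by
        unfold FF
        split_ifs with hc
        · apply b2_eq_zero
          by_contra hd
          rw [not_lt] at hd
          have hd' : dist (sQ Q E • z) z ≤ 1 := by
            rw [dist_comm]
            linarith
          obtain ⟨a1, a2, -, -⟩ := h2 Q hQ0 E hc.1 z hz hd'
          exact hPE ⟨hc.1, hc.2.1, hc.2.2, a1, a2⟩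
        · rfl
      rw [h0, mul_zero]
  refine (Finset.sum_le_sum hterm).trans ?_
  rw [← Finset.sum_filter, ← Finset.sum_mul]
  gcongr
  have h3 := hB (s.filter P) (fun E hE => (Finset.mem_filter.1 hE).2)
    (fun E hE => hl E (Finset.mem_filter.1 hE).2.1)
  have h4 : ∑ E ∈ s.filter P, (fix Γ (l E) : ℝ≥0∞) =
      ENNReal.ofReal (∑ E ∈ s.filter P, (fix Γ (l E) : ℝ)) := by
    rw [ENNReal.ofReal_sum_of_nonneg (fun E _ => Nat.cast_nonneg _)]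
    exact Finset.sum_congr rfl fun E _ => (ENNReal.ofReal_natCast _).symm
  rw [h4]
  exact ENNReal.ofReal_le_ofReal h3

/-- Q19 -/
theorem q19 (h1 : S_npQ) (h2 : S_boxQ) : S_geoNT2 := by
  intro κ hκ hκ1
  obtain ⟨η, hη, C, hC, hnp⟩ := h1 κ hκ hκ1
  refine ⟨η, hη, 8 * C, by positivity, ?_⟩
  intro ρ hρ hρ2 Γ N hlev Q hQ0 hQ hQn
  have hbv := bv_pos hρ
  have hN := hlev.1
  have hΓ := hlev.2.1
  obtain ⟨l, hl⟩ := ex_l N Q hN hQ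
  set n : ℝ := (Γ.index : ℝ) with hn
  have hn0 : 0 ≤ n := Nat.cast_nonneg _
  have hQ1 : (1 : ℝ) ≤ Q := by exact_mod_cast hQ0
  have hB : ∀ s : Finset Mt,
      (∀ E ∈ s, E.det = (Q : ℤ) ^ 2 ∧ E 0 1 ≠ 0 ∧ E 1 0 ≠ 0 ∧
        |(E 0 0 : ℝ)| ≤ 4 * Q ∧ |(E 1 1 : ℝ)| ≤ 4 * Q) →
      (∀ E ∈ s, ∀ i j, (N : ℤ) ∣ E i j - Q * l E i j) →
        ∑ E ∈ s, (fix Γ (l E) : ℝ) ≤ C * (4 * Q) * n ^ (1 - η) := by
    intro s hs1 hs2
    exact hnp Γ N hlev Q hQ0 hQ (4 * Q) (by linarith) (by linarith) hQn s hs1 l hs2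
  have hmain : ∑' g : SL(2, ℤ) ⧸ Gamma N, ∫⁻ z in (𝒟ᵒ : Set ℍ),
        ∑' E : {E : Mt // E ∈ DelC Γ N Q g.out ∧ E 0 1 ≠ 0 ∧ E 1 0 ≠ 0},
          b2 ρ ρ z (sQ Q (E : Mt) • z) ≤
      ((Gamma N).relIndex Γ : ℝ≥0∞) *
        (ENNReal.ofReal (C * (4 * Q) * n ^ (1 - η)) * (ENNReal.ofReal (bv ρ))⁻¹ * 2) := by
    calc _ ≤ ∑' g : SL(2, ℤ) ⧸ Gamma N, ∫⁻ z in (𝒟ᵒ : Set ℍ),
          ∑' E : Mt, Unf.c Γ g.out (l E) * FF ρ Q z E :=
          ENNReal.tsum_le_tsum fun g => lintegral_mono fun z => step1 hΓ hQ ρ hl g.out z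
      _ = ((Gamma N).relIndex Γ : ℝ≥0∞) * ∫⁻ z in (𝒟ᵒ : Set ℍ),
          ∑' E : Mt, (fix Γ (l E) : ℝ≥0∞) * FF ρ Q z E := step2 hN hΓ ρ l _
      _ ≤ ((Gamma N).relIndex Γ : ℝ≥0∞) * ∫⁻ z in (𝒟ᵒ : Set ℍ),
          ENNReal.ofReal (C * (4 * Q) * n ^ (1 - η)) * (ENNReal.ofReal (bv ρ))⁻¹ := by
          refine mul_le_mul' le_rfl ?_
          refine setLIntegral_mono' S3a.measurableSet_fdo fun z hz => ?_
          exact step3 h2 hρ hρ2 hQ0 hl hB (fdo_subset_fd hz)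
      _ = ((Gamma N).relIndex Γ : ℝ≥0∞) *
          (ENNReal.ofReal (C * (4 * Q) * n ^ (1 - η)) * (ENNReal.ofReal (bv ρ))⁻¹ *
            volume (𝒟ᵒ : Set ℍ)) := by rw [setLIntegral_const]
      _ ≤ _ := by
          gcongr
          exact vol_fdo_le
  refine hmain.trans (le_of_eq ?_)
  rw [← ENNReal.ofReal_inv_of_pos hbv, show (2 : ℝ≥0∞) = ENNReal.ofReal 2 by simp,
    ← ENNReal.ofReal_mul (by positivity), ← ENNReal.ofReal_mul (by positivity),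
    ← ENNReal.ofReal_natCast, ← ENNReal.ofReal_mul (Nat.cast_nonneg _)]
  congr 1
  ring

end

end Pool.Agent.H168.LP
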